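import Pool.Agent.H992.BE.Defs

/-!
# The Koopman - von Neumann lemma and Cesaro means along sequences of full density
(helper921 for helper992)
-/

set_option autoImplicit false
open MeasureTheory Filter Topology Complex ProbabilityTheory
open scoped ContDiff ENNReal NNReal BoundedContinuousFunction

namespace Pool.Agent.H921.BE

open Pool.Agent.H992.BE

/-- number of elements `< N` of `A` -/
theorem ncard_eq (A : Set ℕ) (N : ℕ) [DecidablePred (fun n => n ∈ A)] :
    Set.ncard {n : ℕ | n < N ∧ n ∈ A} = ((Finset.range N).filter (fun n => n ∈ A)).card := by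
  rw [← Set.ncard_coe_finset]
  have h : {n : ℕ | n < N ∧ n ∈ A} = ↑((Finset.range N).filter (fun n => n ∈ A)) := by
    ext n
    simp
  rw [h]

theorem compl_card (A : Set ℕ) (N : ℕ) [DecidablePred (fun n => n ∈ A)] :
    ((((Finset.range N).filter (fun n => n ∈ A)).card : ℕ) : ℝ) +
      ((((Finset.range N).filter (fun n => ¬ n ∈ A)).card : ℕ) : ℝ) = N := by
  have h := Finset.card_filter_add_card_filter_not (s := Finset.range N) (fun n => n ∈ A)
  rw [Finset.card_range] at h
  exact_mod_cast h

theorem ces : S_Ces := by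
  classical
  rintro b ⟨C, hC⟩ σ c hσ hfull hlim
  have hlim' := Metric.tendsto_atTop.mp hlim
  set A : Set ℕ := Set.range σ with hA
  set b' : ℕ → ℝ := fun n => if n ∈ A then b n else c with hb'
  have h1 : Tendsto b' atTop (𝓝 c) := by
    rw [Metric.tendsto_atTop]
    intro ε hε
    obtain ⟨J, hJ⟩ := hlim' ε hε
    refine ⟨σ J, fun n hn => ?_⟩
    by_cases hn' : n ∈ A
    · obtain ⟨j, rfl⟩ := hn'
      have hj : J ≤ j := hσ.le_iff_le.mp hn
      have e : b' (σ j) = b (σ j) := by
        simp [hb', hA]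
      rw [e]
      exact hJ j hj
    · have e : b' n = c := by
        simp only [hb', if_neg hn']
      rw [e, dist_self]
      exact hε
  have h2 := h1.cesaro
  set D : ℝ := C + |c| with hD
  have hC0 : 0 ≤ C := (abs_nonneg _).trans (hC 0)
  have hD0 : 0 ≤ D := by positivity
  have h3 : ∀ N : ℕ, |∑ n ∈ Finset.range N, (b n - b' n)| ≤
      D * (((Finset.range N).filter (fun n => ¬ n ∈ A)).card : ℝ) := by
    intro N
    have e1 : ∑ n ∈ Finset.range N, (b n - b' n) =
        ∑ n ∈ (Finset.range N).filter (fun n => ¬ n ∈ A), (b n - b' n) := by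
      rw [Finset.sum_filter]
      apply Finset.sum_congr rfl
      intro n _
      by_cases hn' : n ∈ A
      · simp [hb', hn']
      · simp [hn']
    rw [e1]
    calc |∑ n ∈ (Finset.range N).filter (fun n => ¬ n ∈ A), (b n - b' n)|
        ≤ ∑ n ∈ (Finset.range N).filter (fun n => ¬ n ∈ A), |b n - b' n| :=
          Finset.abs_sum_le_sum_abs _ _
      _ ≤ ∑ _n ∈ (Finset.range N).filter (fun n => ¬ n ∈ A), D := by
          apply Finset.sum_le_sum
          intro n hn
          have hn' := (Finset.mem_filter.mp hn).2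
          have e : b' n = c := by
            simp only [hb', if_neg hn']
          rw [e]
          exact (abs_sub _ _).trans (add_le_add (hC n) le_rfl)
      _ = D * (((Finset.range N).filter (fun n => ¬ n ∈ A)).card : ℝ) := by
          rw [Finset.sum_const, nsmul_eq_mul]
          ring
  have h4 : Tendsto (fun N : ℕ => D * (1 -
      (Set.ncard {n : ℕ | n < N ∧ n ∈ A} : ℝ) / N)) atTop (𝓝 0) := by
    have h := (hfull.const_sub 1).const_mul D
    have e : D * (1 - 1) = 0 := by ring
    rw [e] at h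
    exact h
  have h5 : Tendsto (fun N : ℕ => (∑ n ∈ Finset.range N, (b n - b' n)) / (N : ℝ)) atTop
      (𝓝 0) := by
    rw [tendsto_zero_iff_abs_tendsto_zero]
    refine tendsto_of_tendsto_of_tendsto_of_le_of_le' tendsto_const_nhds h4
      (Eventually.of_forall (fun N => abs_nonneg _)) ?_
    filter_upwards [eventually_gt_atTop 0] with N hN
    have hN' : (0 : ℝ) < N := by exact_mod_cast hN
    simp only [Function.comp]
    rw [abs_div, abs_of_pos hN', div_le_iff₀ hN']
    refine (h3 N).trans ?_
    have hc := compl_card A N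
    rw [ncard_eq]
    have e : D * (1 - (((Finset.range N).filter (fun n => n ∈ A)).card : ℝ) / N) * N =
        D * (N - (((Finset.range N).filter (fun n => n ∈ A)).card : ℝ)) := by
      field_simp
    rw [e]
    apply mul_le_mul_of_nonneg_left _ hD0
    linarith
  have h6 := h2.add h5
  rw [add_zero] at h6
  refine h6.congr (fun N => ?_)
  rw [Finset.sum_sub_distrib]
  ring

theorem kvn : S_KvN := by
  classical
  intro b hb0 _ hces
  set S : ℕ → ℕ → ℝ := fun q n => ((q : ℝ) + 1) * ∑ i ∈ Finset.range (q + 1), b i n with hS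
  have hS0 : ∀ q n, 0 ≤ S q n := fun q n =>
    mul_nonneg (by positivity) (Finset.sum_nonneg (fun i _ => hb0 i n))
  have hSmono : ∀ q q' n, q ≤ q' → S q n ≤ S q' n := by
    intro q q' n hq
    have h1 : ((q : ℝ) + 1) ≤ (q' : ℝ) + 1 := by
      have : (q : ℝ) ≤ q' := by exact_mod_cast hq
      linarith
    have h2 : ∑ i ∈ Finset.range (q + 1), b i n ≤ ∑ i ∈ Finset.range (q' + 1), b i n :=
      Finset.sum_le_sum_of_subset_of_nonneg
        (Finset.range_mono (by omega)) (fun i _ _ => hb0 i n)
    exact mul_le_mul h1 h2 (Finset.sum_nonneg (fun i _ => hb0 i n)) (by positivity)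
  -- Cesaro means of `S q`
  have hSces : ∀ q, Tendsto (fun N : ℕ => (∑ n ∈ Finset.range N, S q n) / (N : ℝ)) atTop
      (𝓝 0) := by
    intro q
    have h1 : Tendsto (fun N : ℕ => ((q : ℝ) + 1) * ∑ i ∈ Finset.range (q + 1),
        ((∑ n ∈ Finset.range N, b i n) / (N : ℝ))) atTop (𝓝 0) := by
      have h2 : Tendsto (fun N : ℕ => ∑ i ∈ Finset.range (q + 1),
          ((∑ n ∈ Finset.range N, b i n) / (N : ℝ))) atTop
          (𝓝 (∑ _i ∈ Finset.range (q + 1), (0 : ℝ))) :=
        tendsto_finsetSum _ (fun i _ => hces i)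
      have h3 := h2.const_mul ((q : ℝ) + 1)
      simpa using h3
    refine h1.congr (fun N => ?_)
    rw [← Finset.sum_div, ← mul_div_assoc]
    simp only [hS]
    rw [← Finset.mul_sum, Finset.sum_comm]
  -- thresholds
  have hthr : ∀ q : ℕ, ∃ g : ℕ, ∀ N, g ≤ N →
      (∑ n ∈ Finset.range N, S q n) * ((q : ℝ) + 1) ≤ N := by
    intro q
    have hpos : (0 : ℝ) < 1 / ((q : ℝ) + 1) := by positivity
    have hev : ∀ᶠ N : ℕ in atTop, (∑ n ∈ Finset.range N, S q n) / (N : ℝ) <
        1 / ((q : ℝ) + 1) := (hSces q).eventually_lt_const hpos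
    obtain ⟨g, hg⟩ := eventually_atTop.mp (hev.and (eventually_gt_atTop 0))
    refine ⟨g, fun N hN => ?_⟩
    obtain ⟨h1, h2⟩ := hg N hN
    have hN' : (0 : ℝ) < N := by exact_mod_cast h2
    rw [div_lt_div_iff₀ hN' (by positivity)] at h1
    linarith
  choose g hg using hthr
  set Q : ℕ → ℕ := fun n => Nat.findGreatest (fun q => g q ≤ n) n with hQ
  have hQg : ∀ n, Q n ≠ 0 → g (Q n) ≤ n := fun n hn =>
    Nat.findGreatest_of_ne_zero (P := fun q => g q ≤ n) (n := n) rfl hn
  have hQle : ∀ n, Q n ≤ n := fun n => Nat.findGreatest_le n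
  have hQmono : ∀ n m, n ≤ m → Q n ≤ Q m := by
    intro n m hnm
    by_cases h0 : Q n = 0
    · rw [h0]
      exact Nat.zero_le _
    · exact Nat.le_findGreatest ((hQle n).trans hnm) ((hQg n h0).trans hnm)
  have hQtop : Tendsto Q atTop atTop := by
    rw [tendsto_atTop]
    intro q
    filter_upwards [eventually_ge_atTop (max q (g q))] with n hn
    exact Nat.le_findGreatest ((le_max_left _ _).trans hn) ((le_max_right _ _).trans hn)
  set A : Set ℕ := {n | S (Q n) n ≤ 1} with hA
  -- counting the complement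
  have hcount : ∀ N, Q N ≠ 0 → ((((Finset.range N).filter (fun n => ¬ n ∈ A)).card : ℕ) : ℝ) *
      ((Q N : ℝ) + 1) ≤ N := by
    intro N hN
    have h1 : ((((Finset.range N).filter (fun n => ¬ n ∈ A)).card : ℕ) : ℝ) ≤
        ∑ n ∈ Finset.range N, S (Q N) n := by
      have e : ((((Finset.range N).filter (fun n => ¬ n ∈ A)).card : ℕ) : ℝ) =
          ∑ _n ∈ (Finset.range N).filter (fun n => ¬ n ∈ A), (1 : ℝ) := by
        rw [Finset.sum_const, nsmul_eq_mul, mul_one]
      rw [e]
      calc ∑ _n ∈ (Finset.range N).filter (fun n => ¬ n ∈ A), (1 : ℝ)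
          ≤ ∑ n ∈ (Finset.range N).filter (fun n => ¬ n ∈ A), S (Q N) n := by
            apply Finset.sum_le_sum
            intro n hn
            obtain ⟨hn1, hn2⟩ := Finset.mem_filter.mp hn
            have h2 : 1 < S (Q n) n := not_le.mp hn2
            exact h2.le.trans (hSmono _ _ n (hQmono n N (Finset.mem_range.mp hn1).le))
        _ ≤ ∑ n ∈ Finset.range N, S (Q N) n :=
            Finset.sum_le_sum_of_subset_of_nonneg (Finset.filter_subset _ _)
              (fun n _ _ => hS0 _ n)
    calc ((((Finset.range N).filter (fun n => ¬ n ∈ A)).card : ℕ) : ℝ) * ((Q N : ℝ) + 1)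
        ≤ (∑ n ∈ Finset.range N, S (Q N) n) * ((Q N : ℝ) + 1) :=
          mul_le_mul_of_nonneg_right h1 (by positivity)
      _ ≤ N := hg (Q N) N (hQg N hN)
  have hQr : Tendsto (fun N : ℕ => 1 - 1 / ((Q N : ℝ) + 1)) atTop (𝓝 1) := by
    have h1 : Tendsto (fun N : ℕ => 1 / ((Q N : ℝ) + 1)) atTop (𝓝 0) :=
      tendsto_one_div_add_atTop_nhds_zero_nat.comp hQtop
    have h2 := h1.const_sub 1
    simpa using h2
  have hdens : Tendsto (fun N : ℕ => (Set.ncard {n : ℕ | n < N ∧ n ∈ A} : ℝ) / N) atTop
      (𝓝 1) := by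
    refine tendsto_of_tendsto_of_tendsto_of_le_of_le' hQr tendsto_const_nhds ?_ ?_
    · filter_upwards [eventually_gt_atTop 0, hQtop.eventually_ge_atTop 1] with N hN hQN
      have hN' : (0 : ℝ) < N := by exact_mod_cast hN
      have h1 := hcount N (by omega)
      have hc := compl_card A N
      rw [ncard_eq, le_div_iff₀ hN']
      have hq : (0 : ℝ) < (Q N : ℝ) + 1 := by positivity
      have h2 : ((((Finset.range N).filter (fun n => ¬ n ∈ A)).card : ℕ) : ℝ) ≤
          1 / ((Q N : ℝ) + 1) * N := by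
        rw [one_div, inv_mul_eq_div, le_div_iff₀ hq]
        exact h1
      nlinarith
    · filter_upwards [eventually_gt_atTop 0] with N hN
      have hN' : (0 : ℝ) < N := by exact_mod_cast hN
      have hc := compl_card A N
      rw [ncard_eq, div_le_iff₀ hN', one_mul]
      have : (0 : ℝ) ≤ ((((Finset.range N).filter (fun n => ¬ n ∈ A)).card : ℕ) : ℝ) :=
        Nat.cast_nonneg _
      linarith
  have hinf : A.Infinite := by
    intro hfin
    have h1 : Tendsto (fun N : ℕ => (Set.ncard {n : ℕ | n < N ∧ n ∈ A} : ℝ) / N) atTop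
        (𝓝 0) := by
      have h2 : Tendsto (fun N : ℕ => (A.ncard : ℝ) / N) atTop (𝓝 0) :=
        tendsto_const_div_atTop_nhds_zero_nat _
      refine tendsto_of_tendsto_of_tendsto_of_le_of_le' tendsto_const_nhds h2
        (Eventually.of_forall (fun N => by positivity)) (Eventually.of_forall (fun N => ?_))
      apply div_le_div_of_nonneg_right _ (Nat.cast_nonneg _)
      have h3 : Set.ncard {n : ℕ | n < N ∧ n ∈ A} ≤ A.ncard :=
        Set.ncard_le_ncard (fun n hn => hn.2) hfin
      exact_mod_cast h3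
    exact one_ne_zero (tendsto_nhds_unique hdens h1)
  refine ⟨Nat.nth (fun n => n ∈ A), Nat.nth_strictMono hinf, ?_, ?_⟩
  · have hr : Set.range (Nat.nth (fun n => n ∈ A)) = A := Nat.range_nth_of_infinite hinf
    unfold FullDensity
    rw [hr]
    exact hdens
  · intro i
    have hmem : ∀ j, Nat.nth (fun n => n ∈ A) j ∈ A := fun j => Nat.nth_mem_of_infinite hinf j
    have htop : Tendsto (fun j => Nat.nth (fun n => n ∈ A) j) atTop atTop :=
      (Nat.nth_strictMono hinf).tendsto_atTop
    have hQs : Tendsto (fun j => Q (Nat.nth (fun n => n ∈ A) j)) atTop atTop := hQtop.comp htop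
    have hlim : Tendsto (fun j => 1 / ((Q (Nat.nth (fun n => n ∈ A) j) : ℝ) + 1)) atTop
        (𝓝 0) := tendsto_one_div_add_atTop_nhds_zero_nat.comp hQs
    refine tendsto_of_tendsto_of_tendsto_of_le_of_le' tendsto_const_nhds hlim
      (Eventually.of_forall (fun j => hb0 _ _)) ?_
    filter_upwards [hQs.eventually_ge_atTop i] with j hj
    set n := Nat.nth (fun n => n ∈ A) j with hn
    have h1 : S (Q n) n ≤ 1 := hmem j
    have h2 : b i n ≤ ∑ i ∈ Finset.range (Q n + 1), b i n :=
      Finset.single_le_sum (f := fun i => b i n) (fun i _ => hb0 i n)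
        (Finset.mem_range.mpr (by omega))
    have hq : (0 : ℝ) < (Q n : ℝ) + 1 := by positivity
    rw [le_div_iff₀ hq]
    calc b i n * ((Q n : ℝ) + 1) ≤ (∑ i ∈ Finset.range (Q n + 1), b i n) * ((Q n : ℝ) + 1) :=
          mul_le_mul_of_nonneg_right h2 hq.le
      _ = S (Q n) n := by
          simp only [hS]
          ring
      _ ≤ 1 := h1

end Pool.Agent.H921.BE
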